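import Mathlib

/-! Project PQ (MP_05dcdc_nt), block GR: finite abelian groups with one involution. -/

set_option autoImplicit false

namespace Pool.Agent.PQ

/-- a subgroup of even order contains the only involution -/
theorem gr_even {G : Type} [CommGroup G] [Finite G] (τ : G)
    (h3 : ∀ g : G, g ^ 2 = 1 → g = 1 ∨ g = τ) (H : Subgroup G) (hH : 2 ∣ Nat.card H) : τ ∈ H := by
  have : Fact (Nat.Prime 2) := ⟨Nat.prime_two⟩
  obtain ⟨x, hx⟩ := exists_prime_orderOf_dvd_card' (G := H) 2 hH
  have h4 : x ^ 2 = 1 := by rw [← hx]; exact pow_orderOf_eq_one x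
  have h5 : (x : G) ^ 2 = 1 := by exact_mod_cast congrArg (Subtype.val) h4
  rcases h3 _ h5 with h6 | h6
  · exfalso
    have h7 : x = 1 := Subtype.ext h6
    rw [h7, orderOf_one] at hx
    omega
  · rw [← h6]; exact x.2

theorem gr {G : Type} [CommGroup G] [Finite G] (τ : G) (h1 : τ ≠ 1) (h2 : τ ^ 2 = 1)
    (h3 : ∀ g : G, g ^ 2 = 1 → g = 1 ∨ g = τ) (χ : G →* ℤˣ) (hχ : ∃ g, χ g = -1) :
    (∀ g : G, χ g = 1 ↔ ∃ k : G, g = k ^ 2) ∧ 2 ∣ Nat.card G ∧ (4 ∣ Nat.card G ↔ χ τ = 1) ∧
    (∀ J : G, J ^ 2 = τ → (8 ∣ Nat.card G ↔ χ J = 1)) := by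
  classical
  have : Fact (Nat.Prime 2) := ⟨Nat.prime_two⟩
  have hsq : ∀ u : ℤˣ, u ^ 2 = 1 := fun u => Int.units_sq u
  -- the square map
  set sq : G →* G := powMonoidHom 2 with hsqd
  have hker2 : Nat.card sq.ker ≤ 2 := by
    have h4 : (sq.ker : Set G) ⊆ (({1, τ} : Finset G) : Set G) := by
      intro g hg
      have h5 : g ^ 2 = 1 := hg
      rcases h3 g h5 with h6 | h6 <;> simp [h6]
    calc Nat.card sq.ker = Set.ncard (sq.ker : Set G) := rfl
      _ ≤ Set.ncard (({1, τ} : Finset G) : Set G) := Set.ncard_le_ncard h4 (Finset.finite_toSet _)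
      _ = ({1, τ} : Finset G).card := Set.ncard_coe_finset _
      _ ≤ 2 := Finset.card_le_two
  have hcard2 : Nat.card sq.ker * Nat.card sq.range = Nat.card G := by
    rw [mul_comm]
    have := Subgroup.card_mul_index sq.ker
    rw [Subgroup.index_ker] at this
    rw [mul_comm]; exact this
  -- the kernel of the character
  have hsurj : Function.Surjective χ := by
    intro u
    rcases Int.units_eq_one_or u with h | h
    · exact ⟨1, by rw [h, map_one]⟩
    · obtain ⟨g, hg⟩ := hχ
      exact ⟨g, by rw [h, hg]⟩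
  have hcardχ : Nat.card χ.ker * 2 = Nat.card G := by
    have h4 := Subgroup.card_mul_index χ.ker
    rw [Subgroup.index_ker] at h4
    have h5 : Nat.card χ.range = 2 := by
      rw [MonoidHom.range_eq_top.mpr hsurj, Subgroup.card_top]
      simp [Nat.card_eq_fintype_card]
    rw [h5] at h4
    exact h4
  have hle : sq.range ≤ χ.ker := by
    rintro _ ⟨k, rfl⟩
    rw [MonoidHom.mem_ker]
    show χ (k ^ 2) = 1
    rw [map_pow]
    exact hsq _
  have heq : sq.range = χ.ker := by
    apply Subgroup.eq_of_le_of_card_ge hle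
    nlinarith
  have hA : ∀ g : G, χ g = 1 ↔ ∃ k : G, g = k ^ 2 := by
    intro g
    rw [← MonoidHom.mem_ker, ← heq]
    constructor
    · rintro ⟨k, hk⟩
      exact ⟨k, hk.symm⟩
    · rintro ⟨k, hk⟩
      exact ⟨k, hk.symm⟩
  have hB : 2 ∣ Nat.card G := ⟨Nat.card χ.ker, by rw [← hcardχ]; ring⟩
  refine ⟨hA, hB, ?_, ?_⟩
  · constructor
    · intro h4
      rw [hA]
      have h5 : 2 ∣ Nat.card sq.range := by
        by_contra hodd
        rw [← hcard2] at h4
        have h6 : Nat.Coprime (2 ^ 2) (Nat.card sq.range) :=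
          Nat.Coprime.pow_left 2 ((Nat.Prime.coprime_iff_not_dvd Nat.prime_two).mpr hodd)
        have h7 : 2 ^ 2 ∣ Nat.card sq.ker := h6.dvd_of_dvd_mul_right (by simpa using h4)
        have h8 := Nat.le_of_dvd Nat.card_pos h7
        omega
      obtain ⟨k, hk⟩ := gr_even τ h3 sq.range h5
      exact ⟨k, hk.symm⟩
    · intro h4
      obtain ⟨k, hk⟩ := (hA τ).mp h4
      have h5 : orderOf k = 2 ^ (1 + 1) := by
        apply orderOf_eq_prime_pow
        · rw [pow_one, ← hk]; exact h1
        · rw [pow_add, pow_one, pow_mul, ← hk]; exact h2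
      have h6 := orderOf_dvd_natCard k
      rw [h5] at h6
      exact h6
  · intro J hJ
    constructor
    · intro h8
      set qu : G →* G := powMonoidHom 4 with hqu
      have hker4 : Nat.card qu.ker ≤ 4 := by
        have h4 : (qu.ker : Set G) ⊆ (({1, τ, J, J * τ} : Finset G) : Set G) := by
          intro g hg
          have h5 : g ^ 4 = 1 := hg
          have h6 : (g ^ 2) ^ 2 = 1 := by rw [← pow_mul]; exact h5
          rcases h3 _ h6 with h7 | h7
          · rcases h3 _ h7 with h9 | h9 <;> simp [h9]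
          · have h9 : (J⁻¹ * g) ^ 2 = 1 := by
              rw [mul_pow, inv_pow, hJ, h7, inv_mul_cancel]
            rcases h3 _ h9 with h10 | h10
            · have h11 : g = J := by
                rw [inv_mul_eq_one] at h10; exact h10.symm
              simp [h11]
            · have h11 : g = J * τ := by
                rw [← h10, mul_inv_cancel_left]
              simp [h11]
        calc Nat.card qu.ker = Set.ncard (qu.ker : Set G) := rfl
          _ ≤ Set.ncard (({1, τ, J, J * τ} : Finset G) : Set G) :=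
              Set.ncard_le_ncard h4 (Finset.finite_toSet _)
          _ = ({1, τ, J, J * τ} : Finset G).card := Set.ncard_coe_finset _
          _ ≤ 4 := Finset.card_le_four
      have hcard4 : Nat.card qu.ker * Nat.card qu.range = Nat.card G := by
        have := Subgroup.card_mul_index qu.ker
        rw [Subgroup.index_ker] at this
        exact this
      have h5 : 2 ∣ Nat.card qu.range := by
        by_contra hodd
        rw [← hcard4] at h8
        have h6 : Nat.Coprime (2 ^ 3) (Nat.card qu.range) :=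
          Nat.Coprime.pow_left 3 ((Nat.Prime.coprime_iff_not_dvd Nat.prime_two).mpr hodd)
        have h7 : 2 ^ 3 ∣ Nat.card qu.ker := h6.dvd_of_dvd_mul_right (by simpa using h8)
        have h9 := Nat.le_of_dvd Nat.card_pos h7
        omega
      obtain ⟨k, hk⟩ := gr_even τ h3 qu.range h5
      have h6 : k ^ 4 = τ := hk
      have h7 : (J⁻¹ * k ^ 2) ^ 2 = 1 := by
        rw [mul_pow, inv_pow, hJ, ← pow_mul, h6, inv_mul_cancel]
      have hτ : χ τ = 1 := by rw [← hJ, map_pow]; exact hsq _
      have hk2 : χ (k ^ 2) = 1 := by rw [map_pow]; exact hsq _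
      rcases h3 _ h7 with h9 | h9
      · have h10 : k ^ 2 = J := by
          rw [inv_mul_eq_one] at h9; exact h9.symm
        rw [← h10]; exact hk2
      · have h10 : χ (J⁻¹ * k ^ 2) = 1 := by rw [h9]; exact hτ
        rw [map_mul, hk2, mul_one, map_inv, inv_eq_one] at h10
        exact h10
    · intro h4
      obtain ⟨k, hk⟩ := (hA J).mp h4
      have h5 : orderOf k = 2 ^ (2 + 1) := by
        apply orderOf_eq_prime_pow
        · have : k ^ 2 ^ 2 = τ := by
            rw [← hJ, hk, ← pow_mul]; norm_num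
          rw [this]; exact h1
        · have : k ^ 2 ^ (2 + 1) = τ ^ 2 := by
            rw [← hJ, hk, ← pow_mul, ← pow_mul]; norm_num
          rw [this]; exact h2
      have h6 := orderOf_dvd_natCard k
      rw [h5] at h6
      exact h6

end Pool.Agent.PQ
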