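import Pool.Agent.Lib_helper60.PQ.Defs

/-! Project PQ (MP_05dcdc_nt), block QC: the quartic character modulo `p ≡ 1 mod 4`. -/

set_option autoImplicit false

namespace Pool.Agent.PQ

open Finset

/-- powers of a generator -/
theorem qc_pow (p : ℕ) [Fact p.Prime] (g : (ZMod p)ˣ) (hg : ∀ x : (ZMod p)ˣ, x ∈ Subgroup.zpowers g)
    (d : ℕ) (hd : d ∣ p - 1) (hd0 : 0 < d) (k : ℕ) :
    (∃ x : ZMod p, x ^ d = ((g ^ k : (ZMod p)ˣ) : ZMod p)) ↔ d ∣ k := by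
  have hord : orderOf g = p - 1 := by
    rw [orderOf_eq_card_of_forall_mem_zpowers hg, Nat.card_eq_fintype_card, ZMod.card_units]
  constructor
  · rintro ⟨x, hx⟩
    have hx0 : x ≠ 0 := by
      rintro rfl
      rw [zero_pow hd0.ne'] at hx
      exact (Units.ne_zero (g ^ k)) hx.symm
    obtain ⟨j, hj⟩ := (mem_powers_iff_mem_zpowers).mpr (hg (Units.mk0 x hx0))
    have h1 : g ^ (j * d) = g ^ k := by
      ext
      rw [pow_mul, Units.val_pow_eq_pow_val]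
      simp only at hj
      rw [hj, Units.val_mk0]
      exact hx
    rw [pow_eq_pow_iff_modEq, hord] at h1
    have h2 : j * d ≡ k [MOD d] := h1.of_dvd hd
    exact (Nat.modEq_zero_iff_dvd.mp (h2.symm.trans (Nat.modEq_zero_iff_dvd.mpr (Dvd.intro_left j rfl))))
  · rintro ⟨j, rfl⟩
    exact ⟨((g ^ j : (ZMod p)ˣ) : ZMod p), by
      rw [← Units.val_pow_eq_pow_val, ← pow_mul, mul_comm j d]⟩

theorem quartic_char (p : ℕ) [Fact p.Prime] (hp : p % 4 = 1) : ∃ χ : DirichletCharacter ℂ p,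
    χ ≠ 1 ∧ χ ^ 2 ≠ 1 ∧ χ ^ 3 ≠ 1 ∧ ∀ q : ℕ, ¬ p ∣ q →
      (Pow2 q p ↔ (χ ^ 2) (q : ZMod p) = 1) ∧ (¬ Pow2 q p ↔ (χ ^ 2) (q : ZMod p) = -1) ∧
      (Pow4 q p ↔ χ (q : ZMod p) = 1) ∧
      (Pow2 q p ∧ ¬ Pow4 q p ↔ χ (q : ZMod p) = -1) ∧
      (¬ Pow2 q p → χ (q : ZMod p) + (χ ^ 3) (q : ZMod p) = 0) := by
  have hpp : p.Prime := Fact.out
  have hp2 := hpp.two_le
  have hdvd : 4 ∣ Fintype.card (ZMod p) - 1 := by
    rw [ZMod.card]; omega
  obtain ⟨χ, hχ⟩ := MulChar.exists_mulChar_orderOf (ZMod p) hdvd Complex.isPrimitiveRoot_I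
  have hd4 : 4 ∣ p - 1 := by omega
  have hd2 : 2 ∣ p - 1 := by omega
  have hne : ∀ i : ℕ, 0 < i → i < 4 → χ ^ i ≠ 1 := by
    intro i h1 h2 h3
    have := orderOf_le_of_pow_eq_one h1 h3
    omega
  refine ⟨χ, ?_, hne 2 (by norm_num) (by norm_num), hne 3 (by norm_num) (by norm_num), ?_⟩
  · simpa using hne 1 (by norm_num) (by norm_num)
  intro q hq
  obtain ⟨g, hg⟩ := IsCyclic.exists_generator (α := (ZMod p)ˣ)
  have hq0 : (q : ZMod p) ≠ 0 := by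
    rwa [Ne, ZMod.natCast_eq_zero_iff]
  obtain ⟨k, hk⟩ := (mem_powers_iff_mem_zpowers).mpr (hg (Units.mk0 (q : ZMod p) hq0))
  simp only at hk
  have hqk : (q : ZMod p) = ((g ^ k : (ZMod p)ˣ) : ZMod p) := by rw [hk, Units.val_mk0]
  set ζ : ℂ := χ (g : ZMod p) with hζ
  have hχq : χ (q : ZMod p) = ζ ^ k := by
    rw [hqk, Units.val_pow_eq_pow_val, map_pow]
  have hχ4 : χ ^ 4 = 1 := by rw [← hχ]; exact pow_orderOf_eq_one χ
  have hζ4 : ζ ^ 4 = 1 := by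
    have h1 : (χ ^ 4) (g : ZMod p) = 1 := by rw [hχ4, MulChar.one_apply_coe]
    rwa [MulChar.pow_apply_coe] at h1
  have hζ2n : ζ ^ 2 ≠ 1 := by
    intro h
    apply hne 2 (by norm_num) (by norm_num)
    ext x
    obtain ⟨j, hj⟩ := (mem_powers_iff_mem_zpowers).mpr (hg x)
    simp only at hj
    rw [← hj, MulChar.one_apply_coe, MulChar.pow_apply_coe, Units.val_pow_eq_pow_val, map_pow,
      ← hζ, ← pow_mul, mul_comm, pow_mul, h, one_pow]
  have hζ2 : ζ ^ 2 = -1 := by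
    have h1 : (ζ ^ 2 - 1) * (ζ ^ 2 + 1) = 0 := by linear_combination hζ4
    rcases mul_eq_zero.mp h1 with h2 | h2
    · exact absurd (sub_eq_zero.mp h2) hζ2n
    · linear_combination h2
  have hpow : ∀ m : ℕ, (χ ^ m) (q : ZMod p) = (ζ ^ k) ^ m := by
    intro m
    rw [hqk, MulChar.pow_apply_coe, ← hqk, hχq]
  have h2iff : Pow2 q p ↔ 2 ∣ k := by
    unfold Pow2
    rw [hqk]
    exact qc_pow p g hg 2 hd2 (by norm_num) k
  have h4iff : Pow4 q p ↔ 4 ∣ k := by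
    unfold Pow4
    rw [hqk]
    exact qc_pow p g hg 4 hd4 (by norm_num) k
  rw [hpow, hpow, hχq, h2iff, h4iff]
  have hne1 : (1 : ℂ) ≠ -1 := by norm_num
  have hζk : ζ ^ k = ζ ^ (k % 4) := by
    conv_lhs => rw [← Nat.div_add_mod k 4, pow_add, pow_mul, hζ4, one_pow, one_mul]
  have hcase : k % 4 = 0 ∨ k % 4 = 1 ∨ k % 4 = 2 ∨ k % 4 = 3 := by omega
  have hζ1 : ζ ≠ 1 := by rintro h; apply hζ2n; rw [h]; norm_num
  have hζm1 : ζ ≠ -1 := by rintro h; apply hζ2n; rw [h]; norm_num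
  have hζ3 : ζ ^ 3 = -ζ := by rw [pow_succ, hζ2]; ring
  rcases hcase with h | h | h | h
  · have d2 : 2 ∣ k := by omega
    have d4 : 4 ∣ k := by omega
    have hv : ζ ^ k = 1 := by rw [hζk, h, pow_zero]
    simp [d2, d4, hv, hne1]
  · have d2 : ¬ 2 ∣ k := by omega
    have d4 : ¬ 4 ∣ k := by omega
    have hv : ζ ^ k = ζ := by rw [hζk, h, pow_one]
    simp [d2, d4, hv, hζ1, hζm1, hζ2, hζ3, hne1.symm]
  · have d2 : 2 ∣ k := by omega
    have d4 : ¬ 4 ∣ k := by omega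
    have hv : ζ ^ k = -1 := by rw [hζk, h, hζ2]
    simp [d2, d4, hv, hne1, hne1.symm]
  · have d2 : ¬ 2 ∣ k := by omega
    have d4 : ¬ 4 ∣ k := by omega
    have hv : ζ ^ k = -ζ := by rw [hζk, h, hζ3]
    have e1 : -ζ ≠ 1 := by intro h'; apply hζm1; linear_combination -h'
    have e2 : -ζ ≠ -1 := by intro h'; apply hζ1; linear_combination -h'
    have e3 : (-ζ) ^ 2 = -1 := by rw [neg_sq, hζ2]
    have e4 : (-ζ) ^ 3 = ζ := by rw [Odd.neg_pow (by decide), hζ3]; ring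
    simp only [d2, d4, hv, e3, e4, not_false_eq_true, false_and, false_iff, e1, e2]
    exact ⟨hne1.symm, trivial, trivial, trivial, fun _ => by ring⟩

end Pool.Agent.PQ
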